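import Mathlib

/-!
Arithmetic core of the theorem on doubly-derived palintiples: the two congruences coming from the
outer digits already force the new multiplier to be the old base.
-/

set_option autoImplicit false

namespace Pool.Agent.N374.Pal

set_option maxHeartbeats 1000000 in
/-- The arithmetic core. -/
theorem core {n b c d₀ dk m B d₁ : ℤ} (h1 : n * dk = d₀ + b * c) (h2 : n * d₀ + c = dk)
    (hn : 1 < n) (hcn : c < n) (hc : 0 < c) (hd₀ : 0 < d₀) (hm : dk < m)
    (hN1 : (m ^ 2 - 1) ∣ B * d₀) (hN2 : (m ^ 2 - 1) ∣ B * d₁ - (m * dk + d₀)) : m = b := by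
  have hdk : 0 < dk := by nlinarith
  have hd0k : d₀ < dk := by nlinarith
  have hm1 : 1 < m := by linarith
  have hNpos : 0 < m ^ 2 - 1 := by nlinarith
  -- the gcd
  obtain ⟨G, hGdef⟩ : ∃ G : ℤ, G = (Int.gcd d₀ (m ^ 2 - 1) : ℤ) := ⟨_, rfl⟩
  have hGpos : 0 < G := by
    rw [hGdef]
    have : 0 < Int.gcd d₀ (m ^ 2 - 1) := Int.gcd_pos_of_ne_zero_left _ hd₀.ne'
    exact_mod_cast this
  obtain ⟨f, hf⟩ : G ∣ d₀ := by rw [hGdef]; exact Int.gcd_dvd_left ..
  obtain ⟨M, hM⟩ : G ∣ (m ^ 2 - 1) := by rw [hGdef]; exact Int.gcd_dvd_right ..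
  have hcop : IsCoprime M f := by
    have h := Int.gcd_eq_gcd_ab d₀ (m ^ 2 - 1)
    rw [← hGdef] at h
    refine ⟨Int.gcdB d₀ (m ^ 2 - 1), Int.gcdA d₀ (m ^ 2 - 1), ?_⟩
    have h' : G * (Int.gcdB d₀ (m ^ 2 - 1) * M + Int.gcdA d₀ (m ^ 2 - 1) * f) = G * 1 := by
      calc G * (Int.gcdB d₀ (m ^ 2 - 1) * M + Int.gcdA d₀ (m ^ 2 - 1) * f)
          = (G * f) * Int.gcdA d₀ (m ^ 2 - 1) + (G * M) * Int.gcdB d₀ (m ^ 2 - 1) := by ring
        _ = d₀ * Int.gcdA d₀ (m ^ 2 - 1) + (m ^ 2 - 1) * Int.gcdB d₀ (m ^ 2 - 1) := by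
            rw [← hf, ← hM]
        _ = G * 1 := by rw [mul_one]; exact h.symm
    exact mul_left_cancel₀ hGpos.ne' h'
  have hMpos : 0 < M := by
    rcases lt_trichotomy M 0 with h | h | h
    · nlinarith
    · subst h; linarith
    · exact h
  have hMB : M ∣ B := by
    have h3 : G * M ∣ G * (B * f) := by
      have : B * d₀ = G * (B * f) := by rw [hf]; ring
      rw [← this, ← hM]; exact hN1
    have h4 : M ∣ B * f := (mul_dvd_mul_iff_left hGpos.ne').1 h3
    exact hcop.dvd_of_dvd_mul_right h4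
  have hMN : M ∣ (m ^ 2 - 1) := ⟨G, by rw [hM]; ring⟩
  have hMX : M ∣ m * dk + d₀ := by
    have h3 : M ∣ B * d₁ - (m * dk + d₀) := hMN.trans hN2
    have h4 : M ∣ B * d₁ := hMB.mul_right _
    have h5 := h4.sub h3
    simpa using h5
  obtain ⟨x, hx⟩ := hMX
  have hMY : M ∣ m * d₀ + dk := by
    have h3 : m * d₀ + dk = m * (m * dk + d₀) - (m ^ 2 - 1) * dk := by ring
    rw [h3]
    exact (Dvd.intro _ hx.symm).mul_left m |>.sub (hMN.mul_right dk)
  obtain ⟨y, hy⟩ := hMY
  have ha : m * x - y = G * dk := by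
    have : M * (m * x - y) = M * (G * dk) := by
      linear_combination (-m) * hx + hy + dk * hM
    exact mul_left_cancel₀ hMpos.ne' this
  have hb : m * y - x = G * d₀ := by
    have : M * (m * y - x) = M * (G * d₀) := by
      linear_combination (-m) * hy + hx + d₀ * hM
    exact mul_left_cancel₀ hMpos.ne' this
  have hypos : 0 < y := by
    have : 0 < M * y := by rw [← hy]; nlinarith
    exact (mul_pos_iff_of_pos_left hMpos).1 this
  have hxy : y < x := by
    have h3 : M * y < M * x := by rw [← hx, ← hy]; nlinarith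
    exact lt_of_mul_lt_mul_left h3 hMpos.le
  have hGd : G ≤ d₀ := Int.le_of_dvd hd₀ ⟨f, hf⟩
  have hxG : x < G := by
    have h3 : (m - 1) * x < (m - 1) * G := by nlinarith
    exact lt_of_mul_lt_mul_left h3 (by linarith)
  have hcc : G * c = m * (x - n * y) + (n * x - y) := by
    linear_combination (-1) * ha + n * hb + G * h2
  have hdd : G * (b * c) = m * (n * x - y) + (x - n * y) := by
    linear_combination (-n) * ha + hb - G * h1
  have hnd : n * d₀ < m := by linarith
  have hGc : G * c < m := by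
    have h3 : G * c ≤ d₀ * c := mul_le_mul_of_nonneg_right hGd hc.le
    have h4 : d₀ * c < d₀ * n := mul_lt_mul_of_pos_left hcn hd₀
    linarith [mul_comm d₀ n]
  have hQpos : 0 < n * x - y := by
    have h3 : 1 * x < n * x := mul_lt_mul_of_pos_right hn (by linarith)
    linarith
  have hQm : n * x - y < m := by
    have h3 : n * x < n * G := mul_lt_mul_of_pos_left hxG (by linarith)
    have h4 : n * G ≤ n * d₀ := mul_le_mul_of_nonneg_left hGd (by linarith)
    linarith
  have hP : x - n * y = 0 := by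
    rcases lt_trichotomy (x - n * y) 0 with h | h | h
    · exfalso
      have h3 : x - n * y ≤ -1 := by linarith [Int.add_one_le_iff.2 h]
      have h4 : 0 < G * c := mul_pos hGpos hc
      have h6 : m * (x - n * y) ≤ m * (-1) := mul_le_mul_of_nonneg_left h3 (by linarith)
      linarith
    · exact h
    · exfalso
      have h3 : 1 ≤ x - n * y := h
      have h6 : m * 1 ≤ m * (x - n * y) := mul_le_mul_of_nonneg_left h3 (by linarith)
      linarith
  rw [hP] at hcc hdd
  have h5 : (G * c) * b = (G * c) * m := by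
    linear_combination hdd - m * hcc
  exact (mul_left_cancel₀ (mul_pos hGpos hc).ne' h5).symm

end Pool.Agent.N374.Pal
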