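import Mathlib
import Pool.Agent.N374.Pal.Core

/-!
Doubly-derived palintiples of shifted-symmetric palintiples: definitions and the theorem that the
new multiplier equals the old base.
-/

set_option autoImplicit false

namespace Pool.Agent.N374.Pal

/-- `(d k, …, d 0)_b` is an `(n, b)`-palintiple with `k + 1` digits: the digits are less than `b`,
the last digit is nonzero, and the number is `n` times its reversal. -/
structure IsPalintiple (n b k : ℕ) (d : ℕ → ℕ) : Prop where
  one_lt : 1 < n
  lt_base : n < b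
  one_le : 1 ≤ k
  digit : ∀ j ≤ k, d j < b
  last : d 0 ≠ 0
  rev : ∑ j ∈ Finset.range (k + 1), d j * b ^ j =
    n * ∑ j ∈ Finset.range (k + 1), d (k - j) * b ^ j

/-- `c 0, …, c (k + 1)` are the carries of the column by column multiplication of the reversal
by `n`. -/
structure IsCarries (n b k : ℕ) (d c : ℕ → ℕ) : Prop where
  zero : c 0 = 0
  top : c (k + 1) = 0
  step : ∀ j ≤ k, n * d (k - j) + c j = d j + b * c (j + 1)

/-- The carries are shifted-symmetric: `c j = c (k - j + 1)` for `0 ≤ j ≤ k`. -/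
def ShiftedSymmetric (k : ℕ) (c : ℕ → ℕ) : Prop := ∀ j ≤ k, c j = c (k - j + 1)

theorem carry_lt {n b k : ℕ} {d c : ℕ → ℕ} (hp : IsPalintiple n b k d)
    (hc : IsCarries n b k d c) : ∀ j ≤ k + 1, c j < n := by
  intro j
  induction j with
  | zero => intro _; rw [hc.zero]; have := hp.one_lt; omega
  | succ j ih =>
    intro hj
    have h1 := hc.step j (by omega)
    have h2 := ih (by omega)
    have h3 := hp.digit (k - j) (by omega)
    have h4 : b * c (j + 1) < b * n := by
      have h5 : n * d (k - j) ≤ n * (b - 1) := Nat.mul_le_mul_left _ (by omega)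
      have h6 : n * (b - 1) + n = n * b := by
        have : 1 ≤ b := by omega
        calc n * (b - 1) + n = n * (b - 1 + 1) := by ring
          _ = n * b := by rw [Nat.sub_add_cancel this]
      have h7 : b * n = n * b := Nat.mul_comm _ _
      omega
    exact lt_of_mul_lt_mul_left h4 (Nat.zero_le _)

/-- The new multiplier is the old base. -/
theorem multiplier_eq_base {n b k : ℕ} {d c : ℕ → ℕ} {n' b' : ℕ} {d' c' : ℕ → ℕ}
    (hp : IsPalintiple n b k d) (hc : IsCarries n b k d c) (hs : ShiftedSymmetric k c)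
    (hp' : IsPalintiple n' b' (k + 2) d') (hc' : IsCarries n' b' (k + 2) d' c')
    (hin : ∀ j ≤ k, c' (j + 1) = d j) (htop : c' (k + 2) = 0) : n' = b := by
  have hk := hp.one_le
  have e0 := hc.step 0 (Nat.zero_le _)
  have ek := hc.step k le_rfl
  rw [hc.zero, Nat.sub_zero] at e0
  rw [hc.top, Nat.sub_self] at ek
  have hck : c 1 = c k := by
    have := hs 1 hk
    rwa [Nat.sub_add_cancel hk] at this
  have f0 := hc'.step 0 (Nat.zero_le _)
  have f1 := hc'.step 1 (by omega)
  have fk := hc'.step (k + 1) (by omega)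
  have fK := hc'.step (k + 2) le_rfl
  have g1 := hin 0 (Nat.zero_le _)
  have g2 := hin 1 hk
  have g3 := hin k le_rfl
  rw [hc'.zero, Nat.sub_zero] at f0
  rw [show k + 2 - 1 = k + 1 by omega] at f1
  rw [show k + 2 - (k + 1) = 1 by omega, show k + 1 + 1 = k + 2 by omega, htop, g3] at fk
  rw [Nat.sub_self, hc'.top, htop] at fK
  rw [zero_add] at f0 g1
  norm_num at f1 g2
  rw [g1] at f0 f1
  rw [g2] at f1
  have hcn : c 1 < n := carry_lt hp hc 1 (by omega)
  have hdm : d k < n' := by
    have := carry_lt hp' hc' (k + 1) (by omega)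
    rwa [g3] at this
  have hd0 : 0 < d 0 := Nat.pos_of_ne_zero hp.last
  have hn := hp.one_lt
  rw [← hck] at ek
  have hc1 : 0 < c 1 := by
    rcases Nat.eq_zero_or_pos (c 1) with h | h
    · exfalso
      rw [h] at ek e0
      simp only [zero_add, mul_zero, add_zero] at ek e0
      have h1 : n * d 0 ≥ 2 * d 0 := Nat.mul_le_mul_right _ hn
      have h2 : n * d k ≥ 2 * d k := Nat.mul_le_mul_right _ hn
      omega
    · exact h
  zify at e0 ek f0 f1 fk fK hcn hdm hd0 hn hc1
  have key := core (n := (n : ℤ)) (b := (b : ℤ)) (c := (c 1 : ℤ)) (d₀ := (d 0 : ℤ))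
    (dk := (d k : ℤ)) (m := (n' : ℤ)) (B := (b' : ℤ)) (d₁ := (d 1 : ℤ))
    (by simp only [zero_add] at e0; linarith) (by linarith) hn hcn hc1 hd0 hdm
    ⟨(d' 0 : ℤ), by linear_combination (-1) * f0 - (n' : ℤ) * fK⟩
    ⟨(d' 1 : ℤ), by linear_combination (-1) * f1 - (n' : ℤ) * fk⟩
  exact_mod_cast key

/-- Doubly-derived palintiples exist: `(7,3)_{11}` has the doubly-derived `(11, 80)`-palintiple
`(22, 51, 4, 2)_{80}`. -/
theorem example_exists : ∃ (n b k : ℕ) (d c : ℕ → ℕ) (n' b' : ℕ) (d' c' : ℕ → ℕ),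
    IsPalintiple n b k d ∧ IsCarries n b k d c ∧ ShiftedSymmetric k c ∧
    IsPalintiple n' b' (k + 2) d' ∧ IsCarries n' b' (k + 2) d' c' ∧
    (∀ j ≤ k, c' (j + 1) = d j) ∧ c' (k + 2) = 0 := by
  refine ⟨2, 11, 1, fun j => if j = 0 then 3 else 7, fun j => if j = 1 then 1 else 0,
    11, 80, fun j => if j = 0 then 2 else if j = 1 then 4 else if j = 2 then 51 else 22,
    fun j => if j = 1 then 3 else if j = 2 then 7 else 0, ?_, ?_, ?_, ?_, ?_, ?_, ?_⟩
  · refine ⟨by norm_num, by norm_num, le_rfl, ?_, by norm_num, by decide⟩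
    intro j hj; interval_cases j <;> simp
  · refine ⟨by simp, by simp, ?_⟩
    intro j hj; interval_cases j <;> simp
  · intro j hj; interval_cases j <;> simp
  · refine ⟨by norm_num, by norm_num, by norm_num, ?_, by norm_num, by decide⟩
    intro j hj; interval_cases j <;> simp
  · refine ⟨by simp, by simp, ?_⟩
    intro j hj; interval_cases j <;> simp
  · intro j hj; interval_cases j <;> simp
  · simp

end Pool.Agent.N374.Pal
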